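import Pool.Agent.H122.R2.FinCharA
import Pool.Agent.H500.AS.All
import Pool.Agent.H500.HC.All

set_option autoImplicit false

namespace Pool.Agent.H122.R2.FinChar

/-- **Part 3 of project R2**: finitely many characters. -/
theorem main : Pool.Agent.H500.R2.S_FinChar :=
  fin_of Pool.Agent.H500.AS.all_Bridge Pool.Agent.H500.AS.all_Mod Pool.Agent.H500.HC.all_Cls

end Pool.Agent.H122.R2.FinChar
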