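import Pool.Agent.H500.R2.Stm

set_option autoImplicit false
set_option linter.unusedSectionVars false

/-!
# Project R2: finitely many characters (conditional form)
-/

namespace Pool.Agent.H122.R2.FinChar

open NumberField IsDedekindDomain Filter Topology Polynomial
open Pool.Agent.W401.Cheb (GK IsFrob IsInert dens)
open Pool.Agent.H500.HC (InRay IsRayChar TotPos)
open Pool.Agent.H500.R2

section cheb

variable {K : Type} [Field K] [NumberField K]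

/-- characters which agree at the Frobenius elements are equal -/
theorem cheb_eq (θ η : GK K →* ℂˣ) (hθ : IsOpen (θ.ker : Set (GK K)))
    (hη : IsOpen (η.ker : Set (GK K))) (M : ℕ) (hM : M ≠ 0)
    (h : ∀ v : HeightOneSpectrum (𝓞 K), (M : 𝓞 K) ∉ v.asIdeal → ∀ σ, IsFrob v σ → θ σ = η σ) :
    θ = η := by
  have hle : θ.ker ⊓ η.ker ≤ (θ / η).ker := by
    intro σ hσ
    have h1 : θ σ = 1 := hσ.1
    have h2 : η σ = 1 := hσ.2
    rw [MonoidHom.mem_ker, MonoidHom.div_apply, h1, h2, div_one]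
  have hopen : IsOpen ((θ / η).ker : Set (GK K)) := by
    refine Subgroup.isOpen_mono hle ?_
    rw [Subgroup.coe_inf]
    exact hθ.inter hη
  have hM0 : (M : 𝓞 K) ≠ 0 := Nat.cast_ne_zero.2 hM
  have d1 := Pool.Agent.H500.MW.dens_sub (K := K) ⊤ (by rw [Subgroup.coe_top]; exact isOpen_univ)
  have d2 := Pool.Agent.H500.MW.dens_sub (θ / η).ker hopen
  have d3 := Pool.Agent.H500.Kum.dens_fin (fun v : HeightOneSpectrum (𝓞 K) =>
    (M : 𝓞 K) ∈ v.asIdeal) (Pool.Agent.H500.Kum.fin_mem hM0)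
  have d4 := d2.add d3
  have hmain := le_of_tendsto_of_tendsto' d1 d4 (fun n => by
    refine le_trans (Pool.Agent.W528.Ord.dens_mono (fun v hv => ?_) n)
      (Pool.Agent.W528.Ord.dens_or (fun v : HeightOneSpectrum (𝓞 K) =>
        ∃ σ ∈ (((θ / η).ker : Subgroup (GK K)) : Set (GK K)), IsFrob v σ)
        (fun v : HeightOneSpectrum (𝓞 K) => (M : 𝓞 K) ∈ v.asIdeal) n)
    obtain ⟨σ, -, hσ⟩ := hv
    by_cases hMv : (M : 𝓞 K) ∈ v.asIdeal
    · exact Or.inr hMv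
    · left
      refine ⟨σ, ?_, hσ⟩
      show σ ∈ (θ / η).ker
      rw [MonoidHom.mem_ker, MonoidHom.div_apply, h v hMv σ hσ, div_self'])
  rw [Subgroup.index_top, Nat.cast_one, div_one, add_zero] at hmain
  have hidx : (θ / η).ker.index = 1 := by
    rcases Nat.lt_or_ge (θ / η).ker.index 2 with h2 | h2
    · interval_cases h3 : (θ / η).ker.index
      · rw [Nat.cast_zero, div_zero] at hmain
        linarith
      · rfl
    · exfalso
      have h4 : (2 : ℝ) ≤ ((θ / η).ker.index : ℝ) := by exact_mod_cast h2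
      have h5 : 1 / ((θ / η).ker.index : ℝ) ≤ 1 / 2 := one_div_le_one_div_of_le (by norm_num) h4
      linarith
  have htop := Subgroup.index_eq_one.1 hidx
  ext σ
  have h6 : σ ∈ (θ / η).ker := by
    rw [htop]
    exact Subgroup.mem_top σ
  rw [MonoidHom.mem_ker, MonoidHom.div_apply, div_eq_one] at h6
  rw [h6]

end cheb

/-- an isomorphism of the groups of roots of unity -/
theorem exists_iso (m l : ℕ) (hm : 0 < m) [Fact l.Prime] (hlm : ¬ l ∣ m) :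
    Nonempty (rootsOfUnity m ℂ ≃* rootsOfUnity m (AlgebraicClosure (ZMod l))) := by
  have : NeZero m := ⟨hm.ne'⟩
  have : CharP (AlgebraicClosure (ZMod l)) l := inferInstance
  have : NeZero ((m : ℕ) : AlgebraicClosure (ZMod l)) :=
    ⟨fun h0 => hlm ((CharP.cast_eq_zero_iff (AlgebraicClosure (ZMod l)) l m).1 h0)⟩
  have : NeZero ((m : ℕ) : ℂ) := ⟨Nat.cast_ne_zero.2 hm.ne'⟩
  have h1 : HasEnoughRootsOfUnity ℂ m := inferInstance
  have h2 : HasEnoughRootsOfUnity (AlgebraicClosure (ZMod l)) m := inferInstance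
  have : IsCyclic (rootsOfUnity m ℂ) := h1.cyc
  have : IsCyclic (rootsOfUnity m (AlgebraicClosure (ZMod l))) := h2.cyc
  exact ⟨mulEquivOfCyclicCardEq
    (by rw [HasEnoughRootsOfUnity.natCard_rootsOfUnity, HasEnoughRootsOfUnity.natCard_rootsOfUnity])⟩

theorem fin_of (hB : Pool.Agent.H500.AS.S_Bridge) (hMod : Pool.Agent.H500.AS.S_Mod)
    (hC : Pool.Agent.H500.HC.S_Cls) : S_FinChar := by
  intro K _ _ N m hN hm
  obtain ⟨l, hlgt, hl⟩ := Nat.exists_infinite_primes (N * m + 1)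
  have : Fact l.Prime := ⟨hl⟩
  have hN0 : N ≠ 0 := by omega
  have hlN : ¬ l ∣ N := fun h => by
    have h1 := Nat.le_of_dvd (by omega) h
    have h2 : N ≤ N * m := Nat.le_mul_of_pos_right N hm
    omega
  have hlm : ¬ l ∣ m := fun h => by
    have h1 := Nat.le_of_dvd hm h
    have h2 : m ≤ N * m := Nat.le_mul_of_pos_left m (by omega)
    omega
  obtain ⟨j⟩ := exists_iso m l hm hlm
  set k := AlgebraicClosure (ZMod l) with hk
  have hlk : (l : k) = 0 := by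
    have : CharP k l := inferInstance
    exact CharP.cast_eq_zero k l
  obtain ⟨M0, hM0def⟩ : ∃ M0 : ℕ, M0 = N ^ (m + 2) * l := ⟨_, rfl⟩
  have hM0 : 0 < M0 := by
    rw [hM0def]
    exact Nat.mul_pos (pow_pos (by omega) _) hl.pos
  obtain ⟨h, R, hh, hR, hcls⟩ := hC K M0 hM0
  -- the character with values in `k`
  have key : ∀ θ : {θ : GK K →* ℂˣ | IsOpen (θ.ker : Set (GK K)) ∧ (∀ σ, θ σ ^ m = 1) ∧
      UnrOut N θ.ker}, ∃ (hθ : ∀ σ, θ.1 σ ∈ rootsOfUnity m ℂ) (χ : Ideal (𝓞 K) →*₀ k),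
      IsRayChar M0 χ ∧ (∀ v : HeightOneSpectrum (𝓞 K), ((N * l : ℕ) : 𝓞 K) ∉ v.asIdeal →
        ∀ σ, IsFrob v σ → χ v.asIdeal = (((j ⟨θ.1 σ, hθ σ⟩ : rootsOfUnity m k) : kˣ) : k)) ∧
      ∀ 𝔞, χ 𝔞 ≠ 0 → χ 𝔞 ^ m = 1 := by
    rintro ⟨θ, hθo, hθm, hθu⟩
    have hθ : ∀ σ, θ σ ∈ rootsOfUnity m ℂ := fun σ => (mem_rootsOfUnity m _).2 (hθm σ)
    refine ⟨hθ, ?_⟩
    let θ' : GK K →* kˣ := (rootsOfUnity m k).subtype.comp
      (j.toMonoidHom.comp (θ.codRestrict (rootsOfUnity m ℂ) hθ))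
    have hθ' : ∀ σ, θ' σ = ((j ⟨θ σ, hθ σ⟩ : rootsOfUnity m k) : kˣ) := fun σ => rfl
    have hker : ∀ σ, θ σ = 1 → θ' σ = 1 := by
      intro σ hσ
      have h1 : (⟨θ σ, hθ σ⟩ : rootsOfUnity m ℂ) = 1 := Subtype.ext hσ
      rw [hθ', h1, map_one]
      rfl
    have hopen : IsOpen (θ'.ker : Set (GK K)) :=
      Subgroup.isOpen_mono (H₁ := θ.ker) (fun σ hσ => hker σ hσ) hθo
    have hinert : ∀ v : HeightOneSpectrum (𝓞 K), ((N * l : ℕ) : 𝓞 K) ∉ v.asIdeal →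
        ∀ σ, IsInert v σ → θ' σ = 1 := by
      intro v hv σ hσ
      refine hker σ (hθu v (fun hNv => hv ?_) σ hσ)
      rw [Nat.cast_mul]
      exact v.asIdeal.mul_mem_right _ hNv
    obtain ⟨χ, e, hsupp, hray, hfrob, hval⟩ := hB K (N * l) k θ' (Nat.mul_ne_zero hN0 hl.ne_zero)
      hopen hinert
    have hvalm : ∀ 𝔞, χ 𝔞 ≠ 0 → χ 𝔞 ^ m = 1 := by
      intro 𝔞 h𝔞
      obtain ⟨σ, hσ⟩ := hval 𝔞 h𝔞
      rw [hσ, hθ' σ, ← Units.val_pow_eq_pow_val, ← Units.val_one]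
      congr 1
      exact (mem_rootsOfUnity m _).1 (j ⟨θ σ, hθ σ⟩).2
    refine ⟨χ, ?_, fun v hv σ hσ => by rw [hfrob v hv σ hσ, hθ' σ], hvalm⟩
    rw [hM0def]
    refine hMod K N l e m k χ hN hl hlN hlk hsupp hray (fun 𝔞 h𝔞 => ⟨m, hvalm 𝔞 h𝔞, ?_⟩)
    intro r hr _ hdvd
    have h1 := Nat.le_of_dvd hm hdvd
    have h2 : m + 1 < r ^ (m + 1) := Nat.lt_pow_self hr.one_lt
    omega
  choose hθ χ hχ using key
  have hRne : ∀ (θ : {θ : GK K →* ℂˣ | IsOpen (θ.ker : Set (GK K)) ∧ (∀ σ, θ σ ^ m = 1) ∧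
      UnrOut N θ.ker}) (𝔯 : R), χ θ 𝔯 ≠ 0 := fun θ 𝔯 =>
    ((hχ θ).1.supp 𝔯 (hR 𝔯 𝔯.2).1).2 (hR 𝔯 𝔯.2).2
  have : Finite {z : k // z ^ m = 1} := by
    have h1 : {z : k | z ^ m = 1} ⊆ ((Polynomial.nthRootsFinset m (1 : k) : Finset k) : Set k) := by
      intro z hz
      rw [Finset.mem_coe, Polynomial.mem_nthRootsFinset hm]
      exact hz
    exact ((Finset.finite_toSet _).subset h1).to_subtype
  have hinj : Function.Injective (fun (θ : {θ : GK K →* ℂˣ | IsOpen (θ.ker : Set (GK K)) ∧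
      (∀ σ, θ σ ^ m = 1) ∧ UnrOut N θ.ker}) (𝔯 : R) =>
      (⟨χ θ 𝔯, (hχ θ).2.2 𝔯 (hRne θ 𝔯)⟩ : {z : k // z ^ m = 1})) := by
    intro θ η hθη
    have hR2 : ∀ 𝔯 : R, χ θ 𝔯 = χ η 𝔯 := fun 𝔯 =>
      congrArg Subtype.val (congrFun hθη 𝔯)
    apply Subtype.ext
    refine cheb_eq θ.1 η.1 θ.2.1 η.2.1 (N * l) (Nat.mul_ne_zero hN0 hl.ne_zero) ?_
    intro v hv σ hσ
    have hcop : IsCoprime v.asIdeal (Ideal.span {(M0 : 𝓞 K)}) := by
      rw [Ideal.isCoprime_iff_sup_eq]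
      have hmax : v.asIdeal.IsMaximal := v.isMaximal
      refine hmax.1.2 _ (lt_of_le_of_ne le_sup_left fun heq => hv ?_)
      have h1 : (M0 : 𝓞 K) ∈ v.asIdeal := by
        rw [heq]
        exact Ideal.mem_sup_right (Ideal.mem_span_singleton_self _)
      rw [hM0def, Nat.cast_mul, Nat.cast_pow] at h1
      rw [Nat.cast_mul]
      rcases v.isPrime.mem_or_mem h1 with h2 | h2
      · exact v.asIdeal.mul_mem_right _ (v.isPrime.mem_of_pow_mem _ h2)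
      · exact v.asIdeal.mul_mem_left _ h2
    obtain ⟨𝔯, h𝔯, x, hx, hvx⟩ := (hcls v.asIdeal v.ne_bot hcop).2
    have e1 : χ θ v.asIdeal * χ θ 𝔯 ^ (h - 1) = 1 := by
      rw [← map_pow, ← map_mul, hvx]
      exact (hχ θ).1.ray x hx
    have e2 : χ η v.asIdeal * χ η 𝔯 ^ (h - 1) = 1 := by
      rw [← map_pow, ← map_mul, hvx]
      exact (hχ η).1.ray x hx
    have e3 : χ θ 𝔯 = χ η 𝔯 := hR2 ⟨𝔯, h𝔯⟩
    have e4 : χ θ v.asIdeal = χ η v.asIdeal := by
      rw [e3] at e1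
      have h5 : χ η 𝔯 ^ (h - 1) ≠ 0 := fun h0 => by
        rw [h0, mul_zero] at e2
        exact one_ne_zero e2.symm
      exact mul_right_cancel₀ h5 (e1.trans e2.symm)
    rw [(hχ θ).2.1 v hv σ hσ, (hχ η).2.1 v hv σ hσ] at e4
    have e5 : (⟨θ.1 σ, hθ θ σ⟩ : rootsOfUnity m ℂ) = ⟨η.1 σ, hθ η σ⟩ :=
      j.injective (Subtype.ext (Units.ext e4))
    exact congrArg Subtype.val e5
  exact Set.finite_coe_iff.1 (Finite.of_injective _ hinj)

end Pool.Agent.H122.R2.FinChar
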